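import Pool.Agent.Helper58.PB.StM

/-! Project PB, module CRT. -/

set_option autoImplicit false

namespace Pool.Agent.Helper96.PB

open Finset
open Pool.Agent.Helper58.PB
open Pool.Agent.Helper48.BK (Cl)

private lemma mem_Cl_CRT {a b c M : ℕ} {d : ℤ} {u : ℕ × ℕ × ℕ} :
    u ∈ Cl a b c d M ↔ u.1 < M ∧ u.2.1 < M ∧ u.2.2 < M ∧
      (M : ℤ) ∣ a * u.1 + b * u.2.1 - c * u.2.2 - d := by
  unfold Cl
  simp [and_assoc]

private lemma emod_CRT (a b c M u v w : ℕ) (d : ℤ) :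
    (M : ℤ) ∣ a * ((u % M : ℕ) : ℤ) + b * ((v % M : ℕ) : ℤ) - c * ((w % M : ℕ) : ℤ) - d ↔
      (M : ℤ) ∣ a * (u : ℤ) + b * (v : ℤ) - c * (w : ℤ) - d := by
  have h1 : (M : ℤ) ∣ (u : ℤ) - ((u % M : ℕ) : ℤ) := by
    rw [Int.natCast_mod]; exact Int.dvd_self_sub_emod
  have h2 : (M : ℤ) ∣ (v : ℤ) - ((v % M : ℕ) : ℤ) := by
    rw [Int.natCast_mod]; exact Int.dvd_self_sub_emod
  have h3 : (M : ℤ) ∣ (w : ℤ) - ((w % M : ℕ) : ℤ) := by
    rw [Int.natCast_mod]; exact Int.dvd_self_sub_emod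
  have h : (M : ℤ) ∣ (a * (u : ℤ) + b * (v : ℤ) - c * (w : ℤ) - d) -
      (a * ((u % M : ℕ) : ℤ) + b * ((v % M : ℕ) : ℤ) - c * ((w % M : ℕ) : ℤ) - d) := by
    have e : (a * (u : ℤ) + b * (v : ℤ) - c * (w : ℤ) - d) -
      (a * ((u % M : ℕ) : ℤ) + b * ((v % M : ℕ) : ℤ) - c * ((w % M : ℕ) : ℤ) - d) =
      a * ((u : ℤ) - ((u % M : ℕ) : ℤ)) + b * ((v : ℤ) - ((v % M : ℕ) : ℤ)) -
      c * ((w : ℤ) - ((w % M : ℕ) : ℤ)) := by ring
    rw [e]
    exact dvd_sub (dvd_add (Dvd.dvd.mul_left h1 _) (Dvd.dvd.mul_left h2 _)) (Dvd.dvd.mul_left h3 _)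
  constructor
  · intro h'
    have := dvd_add h h'
    simpa using this
  · intro h'
    have := dvd_sub h' h
    simpa using this

/-- module CRT -/
theorem hCrt : StCrt := by
  intro a b c M M' d hM hM' hco φ ψ hφ hψ
  have hM0 : M ≠ 0 := by omega
  have hM0' : M' ≠ 0 := by omega
  have hpos : 0 < M := by omega
  have hpos' : 0 < M' := by omega
  have key : ∑ u ∈ Cl a b c d (M * M'), φ u.1 u.2.1 u.2.2 * ψ u.1 u.2.1 u.2.2 =
      ∑ p ∈ (Cl a b c d M) ×ˢ (Cl a b c d M'), φ p.1.1 p.1.2.1 p.1.2.2 * ψ p.2.1 p.2.2.1 p.2.2.2 := by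
    refine Finset.sum_bij'
      (i := fun u _ => ((u.1 % M, u.2.1 % M, u.2.2 % M), (u.1 % M', u.2.1 % M', u.2.2 % M')))
      (j := fun p _ => ((Nat.chineseRemainder hco p.1.1 p.2.1 : ℕ),
        (Nat.chineseRemainder hco p.1.2.1 p.2.2.1 : ℕ), (Nat.chineseRemainder hco p.1.2.2 p.2.2.2 : ℕ)))
      ?_ ?_ ?_ ?_ ?_
    · intro u hu
      rw [mem_Cl_CRT] at hu
      obtain ⟨_, _, _, h4⟩ := hu
      rw [Finset.mem_product, mem_Cl_CRT, mem_Cl_CRT]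
      refine ⟨⟨Nat.mod_lt _ hpos, Nat.mod_lt _ hpos, Nat.mod_lt _ hpos, ?_⟩,
        ⟨Nat.mod_lt _ hpos', Nat.mod_lt _ hpos', Nat.mod_lt _ hpos', ?_⟩⟩
      · rw [emod_CRT a b c M _ _ _ d]
        exact dvd_trans ⟨(M' : ℤ), by push_cast; ring⟩ h4
      · rw [emod_CRT a b c M' _ _ _ d]
        exact dvd_trans ⟨(M : ℤ), by push_cast; ring⟩ h4
    · intro p hp
      rw [Finset.mem_product, mem_Cl_CRT, mem_Cl_CRT] at hp
      obtain ⟨⟨h1, h2, h3, h4⟩, ⟨h1', h2', h3', h4'⟩⟩ := hp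
      rw [mem_Cl_CRT]
      refine ⟨Nat.chineseRemainder_lt_mul hco _ _ hM0 hM0', Nat.chineseRemainder_lt_mul hco _ _ hM0 hM0',
        Nat.chineseRemainder_lt_mul hco _ _ hM0 hM0', ?_⟩
      have q1 := (Nat.chineseRemainder hco p.1.1 p.2.1).2
      have q2 := (Nat.chineseRemainder hco p.1.2.1 p.2.2.1).2
      have q3 := (Nat.chineseRemainder hco p.1.2.2 p.2.2.2).2
      have g1 : (Nat.chineseRemainder hco p.1.1 p.2.1 : ℕ) % M = p.1.1 := by
        rw [q1.1]; exact Nat.mod_eq_of_lt h1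
      have g2 : (Nat.chineseRemainder hco p.1.2.1 p.2.2.1 : ℕ) % M = p.1.2.1 := by
        rw [q2.1]; exact Nat.mod_eq_of_lt h2
      have g3 : (Nat.chineseRemainder hco p.1.2.2 p.2.2.2 : ℕ) % M = p.1.2.2 := by
        rw [q3.1]; exact Nat.mod_eq_of_lt h3
      have g1' : (Nat.chineseRemainder hco p.1.1 p.2.1 : ℕ) % M' = p.2.1 := by
        rw [q1.2]; exact Nat.mod_eq_of_lt h1'
      have g2' : (Nat.chineseRemainder hco p.1.2.1 p.2.2.1 : ℕ) % M' = p.2.2.1 := by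
        rw [q2.2]; exact Nat.mod_eq_of_lt h2'
      have g3' : (Nat.chineseRemainder hco p.1.2.2 p.2.2.2 : ℕ) % M' = p.2.2.2 := by
        rw [q3.2]; exact Nat.mod_eq_of_lt h3'
      have d1 := (emod_CRT a b c M (Nat.chineseRemainder hco p.1.1 p.2.1 : ℕ)
        (Nat.chineseRemainder hco p.1.2.1 p.2.2.1 : ℕ) (Nat.chineseRemainder hco p.1.2.2 p.2.2.2 : ℕ) d).1 (by rw [g1, g2, g3]; exact h4)
      have d2 := (emod_CRT a b c M' (Nat.chineseRemainder hco p.1.1 p.2.1 : ℕ)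
        (Nat.chineseRemainder hco p.1.2.1 p.2.2.1 : ℕ) (Nat.chineseRemainder hco p.1.2.2 p.2.2.2 : ℕ) d).1 (by rw [g1', g2', g3']; exact h4')
      have hc : IsCoprime (M : ℤ) (M' : ℤ) := Nat.isCoprime_iff_coprime.2 hco
      have := hc.mul_dvd d1 d2
      push_cast
      exact this
    · intro u hu
      rw [mem_Cl_CRT] at hu
      obtain ⟨h1, h2, h3, _⟩ := hu
      have aux : ∀ x : ℕ, x < M * M' → (Nat.chineseRemainder hco (x % M) (x % M') : ℕ) = x := by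
        intro x hx
        have := Nat.chineseRemainder_modEq_unique hco (z := x) (a := x % M) (b := x % M')
          (Nat.mod_modEq x M).symm (Nat.mod_modEq x M').symm
        have h := Nat.ModEq.eq_of_lt_of_lt this hx (Nat.chineseRemainder_lt_mul hco _ _ hM0 hM0')
        exact h.symm
      simp only
      rw [aux _ h1, aux _ h2, aux _ h3]
    · intro p hp
      rw [Finset.mem_product, mem_Cl_CRT, mem_Cl_CRT] at hp
      obtain ⟨⟨h1, h2, h3, h4⟩, ⟨h1', h2', h3', h4'⟩⟩ := hp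
      have q1 := (Nat.chineseRemainder hco p.1.1 p.2.1).2
      have q2 := (Nat.chineseRemainder hco p.1.2.1 p.2.2.1).2
      have q3 := (Nat.chineseRemainder hco p.1.2.2 p.2.2.2).2
      have g1 : (Nat.chineseRemainder hco p.1.1 p.2.1 : ℕ) % M = p.1.1 := by
        rw [q1.1]; exact Nat.mod_eq_of_lt h1
      have g2 : (Nat.chineseRemainder hco p.1.2.1 p.2.2.1 : ℕ) % M = p.1.2.1 := by
        rw [q2.1]; exact Nat.mod_eq_of_lt h2
      have g3 : (Nat.chineseRemainder hco p.1.2.2 p.2.2.2 : ℕ) % M = p.1.2.2 := by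
        rw [q3.1]; exact Nat.mod_eq_of_lt h3
      have g1' : (Nat.chineseRemainder hco p.1.1 p.2.1 : ℕ) % M' = p.2.1 := by
        rw [q1.2]; exact Nat.mod_eq_of_lt h1'
      have g2' : (Nat.chineseRemainder hco p.1.2.1 p.2.2.1 : ℕ) % M' = p.2.2.1 := by
        rw [q2.2]; exact Nat.mod_eq_of_lt h2'
      have g3' : (Nat.chineseRemainder hco p.1.2.2 p.2.2.2 : ℕ) % M' = p.2.2.2 := by
        rw [q3.2]; exact Nat.mod_eq_of_lt h3'
      simp only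
      rw [g1, g2, g3, g1', g2', g3']
    · intro u _
      simp only
      rw [hφ u.1 u.2.1 u.2.2 (u.1 % M) (u.2.1 % M) (u.2.2 % M) (Nat.mod_modEq _ _).symm
          (Nat.mod_modEq _ _).symm (Nat.mod_modEq _ _).symm,
        hψ u.1 u.2.1 u.2.2 (u.1 % M') (u.2.1 % M') (u.2.2 % M') (Nat.mod_modEq _ _).symm
          (Nat.mod_modEq _ _).symm (Nat.mod_modEq _ _).symm]
  unfold En
  rw [key, Finset.sum_product]
  have e : (∑ u ∈ Cl a b c d M, φ u.1 u.2.1 u.2.2) * (∑ v ∈ Cl a b c d M', ψ v.1 v.2.1 v.2.2) =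
      ∑ u ∈ Cl a b c d M, ∑ v ∈ Cl a b c d M', φ u.1 u.2.1 u.2.2 * ψ v.1 v.2.1 v.2.2 :=
    Finset.sum_mul_sum _ _ _ _
  calc 1 / (((M * M' : ℕ) : ℂ)) ^ 2 * _
      = 1 / (((M * M' : ℕ) : ℂ)) ^ 2 *
        ((∑ u ∈ Cl a b c d M, φ u.1 u.2.1 u.2.2) * (∑ v ∈ Cl a b c d M', ψ v.1 v.2.1 v.2.2)) := by
        rw [e]
    _ = _ := by
        push_cast
        rw [mul_pow]
        field_simp

end Pool.Agent.Helper96.PB
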